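import Mathlib

/-!
# MP_671186_gt, Q1: the answer is no in every dimension `d ≥ 2`

In each dimension there is a countable partition of `ℝ ^ d` into sets whose points have pairwise
distances less than `1` (sup metric) such that each point of the space lies in the closure of at
most two members. The cells of the cubical lattice (relatively open faces of all dimensions) are
cut into nested shells: two points are in the same member when they are in the same open face and
`⌊1 / t⌋` is the same, where `t` is the distance to the boundary of the face. The closure of a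
shell does not meet the boundary of its face, and a point of the face belongs to the closures of
at most two consecutive shells.
-/

set_option autoImplicit false

namespace Pool.Agent.Results.MP_671186_gt.NestedShells

open Set

/-- `P` is a partition of the space: a family of nonempty, pairwise disjoint subsets whose union is
everything -/
def IsPartition {E : Type} (P : Set (Set E)) : Prop :=
  (∀ X ∈ P, X.Nonempty) ∧ (∀ X ∈ P, ∀ Y ∈ P, X ≠ Y → Disjoint X Y) ∧ ⋃₀ P = univ

/-- the members of `P` whose closure contains `p` -/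
def Nbr {E : Type} [TopologicalSpace E] (P : Set (Set E)) (p : E) : Set (Set E) :=
  {X ∈ P | p ∈ closure X}

/-- the statement of Q1 in dimension `d` (the type `Fin d → ℝ` carries the sup metric) -/
def Q1 (d : ℕ) : Prop :=
  ∀ P : Set (Set (Fin d → ℝ)), IsPartition P →
    ∀ D : ℝ, 0 < D → (∀ X ∈ P, ∀ x ∈ X, ∀ y ∈ X, dist x y < D) →
      ∀ α : Fin d → ℝ, {X ∈ P | (X ∩ Icc α (fun i => α i + D)).Nonempty}.Countable →
        ∃ p, (d + 1 : ℕ∞) ≤ (Nbr P p).encard

/-- the distance of a real number to the nearest integer -/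
noncomputable def r (y : ℝ) : ℝ := min (Int.fract y) (1 - Int.fract y)

variable {d : ℕ}

/-- the number of the shell -/
noncomputable def lev (x : Fin d → ℝ) : ℕ := Finset.univ.sup fun i => ⌊1 / r (x i)⌋₊

open scoped Classical in
/-- the label of a point: its face and its shell -/
noncomputable def lab (x : Fin d → ℝ) : (Fin d → ℤ) × (Fin d → Bool) × ℕ :=
  (fun i => ⌊x i⌋, fun i => decide (Int.fract (x i) = 0), lev x)

theorem closure_mem {X K : Set (Fin d → ℝ)} {p : Fin d → ℝ} (hp : p ∈ closure X)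
    (hK : IsClosed K) (h : X ⊆ K) : p ∈ K := closure_minimal h hK hp

/-- the points of a member -/
theorem lower {x : Fin d → ℝ} {i : Fin d} (hi : Int.fract (x i) ≠ 0) :
    ⌊x i⌋ + 1 / ((lev x : ℝ) + 1) ≤ x i ∧ x i ≤ ⌊x i⌋ + 1 - 1 / ((lev x : ℝ) + 1) := by
  have h1 : ⌊1 / r (x i)⌋₊ ≤ lev x :=
    Finset.le_sup (f := fun i => ⌊1 / r (x i)⌋₊) (Finset.mem_univ i)
  have h2 : 0 < Int.fract (x i) := lt_of_le_of_ne (Int.fract_nonneg _) (Ne.symm hi)
  have h3 : 0 < 1 - Int.fract (x i) := sub_pos.2 (Int.fract_lt_one _)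
  have hr : 0 < r (x i) := lt_min h2 h3
  have h4 : 1 / r (x i) < (lev x : ℝ) + 1 := by
    have h5 := Nat.lt_floor_add_one (1 / r (x i))
    have h6 : ((⌊1 / r (x i)⌋₊ : ℕ) : ℝ) ≤ lev x := Nat.cast_le.2 h1
    linarith
  have h5 : 1 / ((lev x : ℝ) + 1) ≤ r (x i) := by
    rw [div_le_iff₀ (by positivity)]
    rw [div_lt_iff₀ hr] at h4
    linarith
  have h6 : r (x i) ≤ Int.fract (x i) := min_le_left _ _
  have h7 : r (x i) ≤ 1 - Int.fract (x i) := min_le_right _ _
  have h8 : (⌊x i⌋ : ℝ) + Int.fract (x i) = x i := Int.floor_add_fract _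
  constructor <;> linarith

theorem upper {x : Fin d → ℝ} (hx : 0 < lev x) : ∃ i, Int.fract (x i) ≠ 0 ∧
    (x i ≤ ⌊x i⌋ + 1 / (lev x : ℝ) ∨ ⌊x i⌋ + 1 - 1 / (lev x : ℝ) ≤ x i) := by
  obtain ⟨i, hi⟩ : ∃ i, ⌊1 / r (x i)⌋₊ = lev x := by
    have hne : (Finset.univ : Finset (Fin d)).Nonempty := by
      by_contra h
      rw [Finset.not_nonempty_iff_eq_empty] at h
      unfold lev at hx
      rw [h, Finset.sup_empty] at hx
      exact lt_irrefl _ hx
    obtain ⟨i, _, hi⟩ := Finset.exists_mem_eq_sup Finset.univ hne (fun i => ⌊1 / r (x i)⌋₊)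
    exact ⟨i, hi.symm⟩
  have hpos : (0 : ℝ) < lev x := Nat.cast_pos.2 hx
  have h1 : (lev x : ℝ) ≤ 1 / r (x i) := by
    rw [← hi]
    apply Nat.floor_le
    have h2 : 0 < Int.fract (x i) ∨ Int.fract (x i) = 0 :=
      (Int.fract_nonneg (x i)).lt_or_eq.imp id Eq.symm
    have h3 : 0 ≤ r (x i) := le_min (Int.fract_nonneg _) (sub_nonneg.2 (Int.fract_lt_one _).le)
    positivity
  have hr : 0 < r (x i) := by
    by_contra h
    have h2 : 1 / r (x i) ≤ 0 := by
      rw [one_div]
      exact inv_nonpos.2 (not_lt.1 h)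
    linarith
  have h2 : r (x i) ≤ 1 / (lev x : ℝ) := by
    rw [le_div_iff₀ hpos]
    rw [le_div_iff₀ hr] at h1
    linarith
  refine ⟨i, ?_, ?_⟩
  · intro h
    have : r (x i) ≤ Int.fract (x i) := min_le_left _ _
    linarith
  · have h8 : (⌊x i⌋ : ℝ) + Int.fract (x i) = x i := Int.floor_add_fract _
    rcases min_choice (Int.fract (x i)) (1 - Int.fract (x i)) with h | h
    · left
      have : Int.fract (x i) ≤ 1 / (lev x : ℝ) := by
        rw [← h]
        exact h2
      linarith
    · right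
      have : 1 - Int.fract (x i) ≤ 1 / (lev x : ℝ) := by
        rw [← h]
        exact h2
      linarith

/-- a point of the closure of a member, where the coordinate is an integer on the member -/
theorem closure_int {x p : Fin d → ℝ} (hp : p ∈ closure {y | lab y = lab x}) {i : Fin d}
    (hi : Int.fract (x i) = 0) : p i = ⌊x i⌋ := by
  classical
  refine closure_mem (K := {q : Fin d → ℝ | q i = ⌊x i⌋}) hp
    (isClosed_eq (continuous_apply i) continuous_const) ?_
  intro y hy
  have h1 : ⌊y i⌋ = ⌊x i⌋ := congrFun (congrArg Prod.fst hy) i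
  have h2 : decide (Int.fract (y i) = 0) = decide (Int.fract (x i) = 0) :=
    congrFun (congrArg (fun z => z.2.1) hy) i
  have h3 : Int.fract (y i) = 0 := by simpa [hi] using h2
  have h4 : (⌊y i⌋ : ℝ) + Int.fract (y i) = y i := Int.floor_add_fract _
  change y i = ⌊x i⌋
  rw [← h1, ← h4, h3, add_zero, Int.floor_intCast]

theorem fract_ne {x y : Fin d → ℝ} (h : lab y = lab x) {i : Fin d}
    (hi : Int.fract (x i) ≠ 0) : Int.fract (y i) ≠ 0 := by
  classical
  have h2 : decide (Int.fract (y i) = 0) = decide (Int.fract (x i) = 0) :=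
    congrFun (congrArg (fun z => z.2.1) h) i
  intro h3
  simp [hi, h3] at h2

theorem closure_low {x p : Fin d → ℝ} (hp : p ∈ closure {y | lab y = lab x}) {i : Fin d}
    (hi : Int.fract (x i) ≠ 0) :
    ⌊x i⌋ + 1 / ((lev x : ℝ) + 1) ≤ p i ∧ p i ≤ ⌊x i⌋ + 1 - 1 / ((lev x : ℝ) + 1) := by
  have key : ∀ y ∈ {y | lab y = lab x},
      ⌊x i⌋ + 1 / ((lev x : ℝ) + 1) ≤ y i ∧ y i ≤ ⌊x i⌋ + 1 - 1 / ((lev x : ℝ) + 1) := by
    intro y hy
    have h1 : ⌊y i⌋ = ⌊x i⌋ := congrFun (congrArg Prod.fst hy) i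
    have h2 : lev y = lev x := congrArg (fun z => z.2.2) hy
    have h3 := lower (fract_ne hy hi)
    rw [h1, h2] at h3
    exact h3
  constructor
  · exact closure_mem (K := {q : Fin d → ℝ | ⌊x i⌋ + 1 / ((lev x : ℝ) + 1) ≤ q i}) hp
      (isClosed_le continuous_const (continuous_apply i)) fun y hy => (key y hy).1
  · exact closure_mem (K := {q : Fin d → ℝ | q i ≤ ⌊x i⌋ + 1 - 1 / ((lev x : ℝ) + 1)}) hp
      (isClosed_le (continuous_apply i) continuous_const) fun y hy => (key y hy).2

theorem closure_up {x p : Fin d → ℝ} (hp : p ∈ closure {y | lab y = lab x}) (hx : 0 < lev x) :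
    ∃ i, Int.fract (x i) ≠ 0 ∧
      (p i ≤ ⌊x i⌋ + 1 / (lev x : ℝ) ∨ ⌊x i⌋ + 1 - 1 / (lev x : ℝ) ≤ p i) := by
  have hcl : ∀ i, IsClosed {q : Fin d → ℝ | Int.fract (x i) ≠ 0 ∧
      (q i ≤ ⌊x i⌋ + 1 / (lev x : ℝ) ∨ ⌊x i⌋ + 1 - 1 / (lev x : ℝ) ≤ q i)} := by
    intro i
    by_cases hi : Int.fract (x i) ≠ 0
    · simp only [hi, ne_eq, not_false_eq_true, true_and]
      exact (isClosed_le (continuous_apply i) continuous_const).union
        (isClosed_le continuous_const (continuous_apply i))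
    · simp only [hi, false_and]
      exact isClosed_empty
  have hK : IsClosed (⋃ i, {q : Fin d → ℝ | Int.fract (x i) ≠ 0 ∧
      (q i ≤ ⌊x i⌋ + 1 / (lev x : ℝ) ∨ ⌊x i⌋ + 1 - 1 / (lev x : ℝ) ≤ q i)}) :=
    isClosed_iUnion_of_finite hcl
  have h := closure_mem hp hK (by
    intro y hy
    have h2 : lev y = lev x := congrArg (fun z => z.2.2) hy
    obtain ⟨i, h3, h4⟩ := upper (x := y) (by rw [h2]; exact hx)
    have h1 : ⌊y i⌋ = ⌊x i⌋ := congrFun (congrArg Prod.fst hy) i
    rw [h1, h2] at h4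
    exact mem_iUnion.2 ⟨i, fract_ne (x := y) (y := x) (Eq.symm hy) h3, h4⟩)
  obtain ⟨i, hi⟩ := mem_iUnion.1 h
  exact ⟨i, hi.1, hi.2⟩

/-- the face of a point of the closure -/
theorem closure_face {x p : Fin d → ℝ} (hp : p ∈ closure {y | lab y = lab x}) (i : Fin d) :
    ⌊x i⌋ = ⌊p i⌋ ∧ (Int.fract (x i) = 0 ↔ Int.fract (p i) = 0) := by
  by_cases hi : Int.fract (x i) = 0
  · have h1 := closure_int hp hi
    rw [h1]
    refine ⟨(Int.floor_intCast _).symm, ?_⟩
    rw [Int.fract_intCast]
    exact ⟨fun _ => rfl, fun _ => hi⟩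
  · obtain ⟨h1, h2⟩ := closure_low hp hi
    have hpos : 0 < 1 / ((lev x : ℝ) + 1) := by positivity
    have h3 : ⌊p i⌋ = ⌊x i⌋ := by
      rw [Int.floor_eq_iff]
      constructor <;> linarith
    refine ⟨h3.symm, ?_⟩
    constructor
    · exact fun h => absurd h hi
    · intro h
      have h4 : (⌊p i⌋ : ℝ) + Int.fract (p i) = p i := Int.floor_add_fract _
      rw [h, h3, add_zero] at h4
      linarith

theorem lev_le {x y p : Fin d → ℝ} (hx : p ∈ closure {z | lab z = lab x})
    (hy : p ∈ closure {z | lab z = lab y}) : lev y ≤ lev x + 1 := by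
  by_contra hcon
  push Not at hcon
  obtain ⟨i, h1, h2⟩ := closure_up hy (by omega)
  obtain ⟨h3, h4⟩ := closure_face hx i
  obtain ⟨h5, h6⟩ := closure_face hy i
  have h7 : Int.fract (x i) ≠ 0 := fun h => h1 (h6.2 (h4.1 h))
  obtain ⟨h8, h9⟩ := closure_low hx h7
  rw [h5] at h2
  rw [h3] at h8 h9
  have h10 : 1 / (lev y : ℝ) < 1 / ((lev x : ℝ) + 1) := by
    apply one_div_lt_one_div_of_lt (by positivity)
    exact_mod_cast hcon
  rcases h2 with h | h <;> linarith

/-- the partition -/
def part (d : ℕ) : Set (Set (Fin d → ℝ)) := {X | ∃ x, X = {y | lab y = lab x}}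

theorem part_isPartition (d : ℕ) : IsPartition (part d) := by
  refine ⟨?_, ?_, ?_⟩
  · rintro X ⟨x, rfl⟩
    exact ⟨x, rfl⟩
  · rintro X ⟨x, rfl⟩ Y ⟨y, rfl⟩ hne
    rw [Set.disjoint_left]
    intro z h1 h2
    apply hne
    have : lab x = lab y := (Eq.symm h1).trans h2
    rw [this]
  · rw [eq_univ_iff_forall]
    intro x
    exact ⟨{y | lab y = lab x}, ⟨x, rfl⟩, rfl⟩

theorem part_countable (d : ℕ) : (part d).Countable := by
  have h : part d ⊆ range fun l : (Fin d → ℤ) × (Fin d → Bool) × ℕ => {y | lab y = l} := by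
    rintro X ⟨x, rfl⟩
    exact ⟨lab x, rfl⟩
  exact (countable_range _).mono h

theorem part_small (d : ℕ) : ∀ X ∈ part d, ∀ x ∈ X, ∀ y ∈ X, dist x y < 1 := by
  rintro X ⟨z, rfl⟩ x hx y hy
  rw [dist_pi_lt_iff one_pos]
  intro i
  have h1 : ⌊x i⌋ = ⌊z i⌋ := congrFun (congrArg Prod.fst hx) i
  have h2 : ⌊y i⌋ = ⌊z i⌋ := congrFun (congrArg Prod.fst hy) i
  rw [Real.dist_eq]
  exact Int.abs_sub_lt_one_of_floor_eq_floor (h1.trans h2.symm)

theorem part_two (d : ℕ) (p : Fin d → ℝ) : (Nbr (part d) p).encard ≤ 2 := by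
  classical
  rcases (Nbr (part d) p).eq_empty_or_nonempty with h | h
  · rw [h, encard_empty]
    exact bot_le
  -- the member with the least shell number
  let L : Set ℕ := {n | ∃ x, p ∈ closure {y | lab y = lab x} ∧ lev x = n}
  have hL : L.Nonempty := by
    obtain ⟨X, ⟨x, rfl⟩, hx⟩ := h
    exact ⟨lev x, x, hx, rfl⟩
  obtain ⟨x0, hx0, hm⟩ := Nat.sInf_mem hL
  set m := sInf L with hmdef
  let F : ℕ → Set (Fin d → ℝ) := fun n =>
    {y | lab y = (fun i => ⌊p i⌋, fun i => decide (Int.fract (p i) = 0), n)}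
  have hsub : Nbr (part d) p ⊆ {F m, F (m + 1)} := by
    rintro X ⟨⟨x, rfl⟩, hx⟩
    have h1 : m ≤ lev x := Nat.sInf_le ⟨x, hx, rfl⟩
    have h2 := lev_le hx0 hx
    rw [hm] at h2
    have h3 : lab x = (fun i => ⌊p i⌋, fun i => decide (Int.fract (p i) = 0), lev x) := by
      unfold lab
      refine Prod.ext ?_ (Prod.ext ?_ rfl)
      · funext i
        exact (closure_face hx i).1
      · funext i
        exact decide_eq_decide.2 (closure_face hx i).2
    have h4 : {y | lab y = lab x} = F (lev x) := by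
      rw [h3]
    rw [h4]
    rcases Nat.eq_or_lt_of_le h1 with h5 | h5
    · left
      rw [h5]
    · right
      have h6 : lev x = m + 1 := by omega
      rw [h6]
      exact mem_singleton _
  refine (encard_le_encard hsub).trans ?_
  refine (encard_insert_le _ _).trans ?_
  rw [encard_singleton]
  norm_num

/-- **Q1 is false in every dimension `d ≥ 2`.** More precisely, in every dimension there is a
countable partition of the space into sets whose points have pairwise distances less than `1`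
such that each point lies in the closure of at most two members. -/
theorem result :
    (∀ d : ℕ, ∃ P : Set (Set (Fin d → ℝ)), IsPartition P ∧ P.Countable ∧
      (∀ X ∈ P, ∀ x ∈ X, ∀ y ∈ X, dist x y < 1) ∧ ∀ p, (Nbr P p).encard ≤ 2) ∧
    ∀ d : ℕ, 2 ≤ d → ¬ Q1 d := by
  refine ⟨fun d => ⟨part d, part_isPartition d, part_countable d, part_small d, part_two d⟩, ?_⟩
  intro d hd hQ
  obtain ⟨p, hp⟩ := hQ (part d) (part_isPartition d) 1 one_pos (part_small d) 0
    ((part_countable d).mono (sep_subset _ _))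
  have h1 := hp.trans (part_two d p)
  have h2 : (d + 1 : ℕ) ≤ 2 := by exact_mod_cast h1
  omega

end Pool.Agent.Results.MP_671186_gt.NestedShells
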